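import Pool.Agent.H75.OM.TC

set_option autoImplicit false

namespace Pool.Agent.H5.OM

open Finset Pool.Agent.H6.NB Pool.Agent.H70.OQ Pool.Agent.H70.EH Pool.Agent.H70.EI Pool.Agent.H78.XQ
open Pool.Agent.H75.OM

theorem cm_mono {m s s' : ℕ} {f : List Bool → Bool} (h : Cm m s f) (hs : s ≤ s') : Cm m s' f := by
  obtain ⟨C, h1, h2, h3, h4⟩ := h
  exact ⟨C, h1, h2, h3.trans hs, h4⟩

theorem thr_congr {r W : ℕ} {b b' : ℕ → Bool} (h : ∀ i < r, b i = b' i) :
    thr r W b = thr r W b' := by
  unfold thr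
  have : ∑ i ∈ Finset.range r, (if b i then 2 ^ i else 0) =
      ∑ i ∈ Finset.range r, (if b' i then 2 ^ i else 0) := by
    apply Finset.sum_congr rfl
    intro i hi
    rw [h i (Finset.mem_range.1 hi)]
  rw [this]

theorem getD_map_range {r : ℕ} (g : ℕ → Bool) {i : ℕ} (hi : i < r) :
    ((List.range r).map g).getD i false = g i := by
  rw [List.getD_eq_getElem _ _ (by simpa using hi)]
  simp

theorem cm_thr (h1 : T_CMC) (h3 : T_THR) {m B r W : ℕ} (y : List Bool → ℕ → Bool)
    (hy : ∀ i, Cm m B fun w => y w i) :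
    Cm m (20 * r + 4 + r * B) fun w => thr r W fun i => y w (i + 1) := by
  have h := h1 m r (20 * r + 4) (fun _ => B) (fun b => thr r W fun i => b.getD i false)
    (fun j w => y w (j + 1)) (h3 r W) (fun j _ => hy (j + 1))
  have e : (20 * r + 4 + ∑ _j ∈ Finset.range r, B) = 20 * r + 4 + r * B := by simp
  rw [e] at h
  have e2 : (fun x : List Bool => thr r W fun i =>
      ((List.range r).map fun j => y x (j + 1)).getD i false) =
      fun w => thr r W fun i => y w (i + 1) := by
    funext w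
    apply thr_congr
    intro i hi
    exact getD_map_range (fun j => y w (j + 1)) hi
  rw [e2] at h
  exact h

theorem num_SIM {s ω l D₀ m dl ql B : ℕ} (hB : B = 2 ^ (2 * l + 10) * (s + ω + 2)) (hm : m ≤ s)
    (hd : dl ≤ D₀) (hq : ql ≤ D₀) :
    (2 * (20 * m + 20) + 8) * dl + ((2 * (B * (ω + 1)) + 8) * ql + B) ≤ siz s ω l D₀ := by
  have hp : 1024 ≤ 2 ^ (2 * l + 10) := by
    calc 1024 = 2 ^ 10 := by norm_num
      _ ≤ 2 ^ (2 * l + 10) := Nat.pow_le_pow_right (by norm_num) (by omega)
  have hK : 1024 * (s + ω + 2) ≤ B := by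
    rw [hB]; exact Nat.mul_le_mul_right _ hp
  have h1 : (2 * (20 * m + 20) + 8) * dl ≤ (40 * s + 48) * D₀ := Nat.mul_le_mul (by omega) hd
  have h2 : (2 * (B * (ω + 1)) + 8) * ql ≤ (2 * (B * (ω + 1)) + 8) * D₀ :=
    Nat.mul_le_mul_left _ hq
  have h3 : 40 * s + 48 + 8 ≤ B := by omega
  have h4 : (40 * s + 48) * D₀ + ((2 * (B * (ω + 1)) + 8) * D₀ + B) ≤
      (D₀ + 1) * (2 * B * (ω + 2)) := by
    have h5 : (40 * s + 48 + 8) * D₀ ≤ B * D₀ := Nat.mul_le_mul_right _ h3
    nlinarith [h5, Nat.zero_le (B * ω), Nat.zero_le B]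
  have h6 : 2 * B ≤ 2 ^ (3 * l + 16) * (s + ω + 2) := by
    rw [hB, ← mul_assoc]
    apply Nat.mul_le_mul_right
    calc 2 * 2 ^ (2 * l + 10) = 2 ^ (2 * l + 11) := by ring
      _ ≤ 2 ^ (3 * l + 16) := Nat.pow_le_pow_right (by norm_num) (by omega)
  calc (2 * (20 * m + 20) + 8) * dl + ((2 * (B * (ω + 1)) + 8) * ql + B)
      ≤ (40 * s + 48) * D₀ + ((2 * (B * (ω + 1)) + 8) * D₀ + B) := by omega
    _ ≤ (D₀ + 1) * (2 * B * (ω + 2)) := h4
    _ ≤ (D₀ + 1) * (2 ^ (3 * l + 16) * (s + ω + 2) * (ω + 2)) :=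
        Nat.mul_le_mul_left _ (Nat.mul_le_mul_right _ h6)
    _ = siz s ω l D₀ := by unfold siz; ring

open Classical in
theorem osp_eq (p : Spc) (y : List Bool → ℕ → Bool) (w : List Bool) : OSp p y w =
    match (p.D.map fun c => ((fun w => decide (c.1 = w)), (fun _ : List Bool => c.2))).find?
      (fun c : (List Bool → Bool) × (List Bool → Bool) => c.1 w) with
    | some c => c.2 w
    | none => (fun w => match (p.Q.map fun c => ((fun w => decide (IsW c.1 c.2.1 w)),
          (fun w : List Bool => thr c.2.1 c.2.2 fun i => y w (i + 1)))).find?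
          (fun c : (List Bool → Bool) × (List Bool → Bool) => c.1 w) with
        | some c => c.2 w
        | none => y w 0) w := by
  unfold OSp
  simp only [List.find?_map, Function.comp_def]
  cases hD : p.D.find? (fun c => decide (c.1 = w)) with
  | some c => simp
  | none =>
    cases hQ : p.Q.find? (fun c => decide (IsW c.1 c.2.1 w)) with
    | some c => simp
    | none => simp

theorem pf_SIM (h1 : T_CMC) (h2 : Pool.Agent.H75.OM.T_CMB) (h3 : T_THR) (h4 : T_TST) (h5 : T_SEL) (h6 : T_LFY) :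
    T_SIM := by
  classical
  intro s ω l D₀ M z p m hp hm
  obtain ⟨B, hB⟩ : ∃ B, B = 2 ^ (2 * l + 10) * (s + ω + 2) := ⟨_, rfl⟩
  generalize hy : (ex2 s ω fun x => gen M z (enc s ω x.1.1 x.2)) = y
  have hY : ∀ i, Cm m B fun w => y w i := by
    intro i
    have := h6 s ω l M z m i hm
    rw [hB, ← hy]
    exact this
  have hp1 : 1024 ≤ 2 ^ (2 * l + 10) := by
    calc 1024 = 2 ^ 10 := by norm_num
      _ ≤ 2 ^ (2 * l + 10) := Nat.pow_le_pow_right (by norm_num) (by omega)
  have hK : 1024 * (s + ω + 2) ≤ B := by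
    rw [hB]; exact Nat.mul_le_mul_right _ hp1
  -- inner
  have hin := h5 m (B * (ω + 1)) B (p.Q.map fun c => ((fun w => decide (IsW c.1 c.2.1 w)),
      (fun w : List Bool => thr c.2.1 c.2.2 fun i => y w (i + 1)))) (fun w => y w 0)
      (by
        intro c hc
        obtain ⟨d, hd, rfl⟩ := List.mem_map.1 hc
        have hr := hp.len d hd
        constructor
        · refine cm_mono (h4 m d.2.1 d.1).2 ?_
          have : B ≤ B * (ω + 1) := Nat.le_mul_of_pos_right _ (by omega)
          omega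
        · refine cm_mono (cm_thr h1 h3 y hY) ?_
          have h7 : d.2.1 * B ≤ ω * B := Nat.mul_le_mul_right _ hr
          have h8 : B * (ω + 1) = ω * B + B := by ring
          omega) (hY 0)
  have hout := h5 m (20 * m + 20) _
    (p.D.map fun c => ((fun w => decide (c.1 = w)), (fun _ : List Bool => c.2))) _
      (by
        intro c hc
        obtain ⟨d, hd, rfl⟩ := List.mem_map.1 hc
        exact ⟨(h4 m 0 d.1).1, cm_mono (h2.2.1 m d.2) (by omega)⟩) hin
  have hfun : OSp p y = fun w =>
    match (p.D.map fun c => ((fun w => decide (c.1 = w)), (fun _ : List Bool => c.2))).find?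
      (fun c : (List Bool → Bool) × (List Bool → Bool) => c.1 w) with
    | some c => c.2 w
    | none => (fun w => match (p.Q.map fun c => ((fun w => decide (IsW c.1 c.2.1 w)),
          (fun w : List Bool => thr c.2.1 c.2.2 fun i => y w (i + 1)))).find?
          (fun c : (List Bool → Bool) × (List Bool → Bool) => c.1 w) with
        | some c => c.2 w
        | none => y w 0) w := by
    funext w
    exact osp_eq p y w
  rw [hfun]
  refine cm_mono hout ?_
  rw [List.length_map, List.length_map]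
  exact num_SIM hB hm hp.dic hp.num

end Pool.Agent.H5.OM
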